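import Pool.Agent.H82.NTC.Pot

/-!
# Board `ntc`, row PWJ4
-/

set_option autoImplicit false

namespace Pool.NTC

open Pool.NET

theorem pwj4_abs (X Y : ℤ) (h : |4 * X + 1 - 4 * Y| < |4 * X + 1 - 4 * X|) : False := by
  have h1 : |4 * X + 1 - 4 * X| = 1 := by
    have : 4 * X + 1 - 4 * X = 1 := by ring
    rw [this]
    exact abs_one
  rw [h1] at h
  obtain ⟨h2, h3⟩ := abs_lt.1 h
  omega

theorem pwj4_thm : PWk Ke.J4 := by
  intro p e g e' g' h u _ _ _ tt _ v a s _ _ hlt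
  exact (pwj4_abs _ _ hlt).elim

end Pool.NTC
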